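import Mathlib
import Pool.Agent.Zk94.HT.EStm

/-!
# Project HT, part `S_ELL`: the subpart E1

The neighbourhoods `r ≤ |X|` of the origin of the elliptic curve `Y² = (X - a) (X - b) (X - c)` over
an ultrametric field are subgroups as soon as `r > max (|a|, |b|, |c|)`, and the multiplication by two
maps the neighbourhood of radius `r` into the one of radius `r / |2|²`.
-/

set_option autoImplicit false
set_option linter.all false

namespace Pool.Agent.Zk95.HT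

open Pool.Agent.Zk94.HT WeierstrassCurve

section alg

variable {L : Type} [Field L] {a b c : L}

theorem eqn {x y : L} : (crv a b c).toAffine.Equation x y ↔ y ^ 2 = (x - a) * (x - b) * (x - c) := by
  rw [Affine.equation_iff]
  simp only [crv]
  constructor
  · intro h; linear_combination h
  · intro h; linear_combination h

theorem neg_Y (x y : L) : (crv a b c).toAffine.negY x y = -y := by
  simp [Affine.negY, crv]

theorem add_X (x x' l : L) : (crv a b c).toAffine.addX x x' l = l ^ 2 + (a + b + c) - x - x' := by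
  simp only [Affine.addX, crv]; ring

/-- the numerator of `X(P + Q) X(P - Q)` -/
def num (a b c x x' : L) : L :=
  (x * x' - (a * b + b * c + c * a)) ^ 2 + 4 * (a * b * c) * (x + x' - (a + b + c))

/-- half of the numerator of `X(P + Q) + X(P - Q)` -/
def den (a b c x x' : L) : L :=
  (x + x') * (x * x' + (a * b + b * c + c * a)) - 2 * (a + b + c) * (x * x') - 2 * (a * b * c)

theorem prod_eq {x x' y y' : L} (hx : x ≠ x') (h : y ^ 2 = (x - a) * (x - b) * (x - c))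
    (h' : y' ^ 2 = (x' - a) * (x' - b) * (x' - c)) :
    (((y - y') / (x - x')) ^ 2 + (a + b + c) - x - x') *
      (((y + y') / (x - x')) ^ 2 + (a + b + c) - x - x') * (x - x') ^ 2 = num a b c x x' := by
  have h0 : x - x' ≠ 0 := sub_ne_zero.2 hx
  have e1 : (((y - y') / (x - x')) ^ 2 + (a + b + c) - x - x') * (x - x') ^ 2 =
      (y - y') ^ 2 + (a + b + c - x - x') * (x - x') ^ 2 := by
    field_simp
    ring
  have e2 : (((y + y') / (x - x')) ^ 2 + (a + b + c) - x - x') * (x - x') ^ 2 =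
      (y + y') ^ 2 + (a + b + c - x - x') * (x - x') ^ 2 := by
    field_simp
    ring
  have e3 : ((((y - y') / (x - x')) ^ 2 + (a + b + c) - x - x') *
      (((y + y') / (x - x')) ^ 2 + (a + b + c) - x - x') * (x - x') ^ 2) * (x - x') ^ 2 =
      num a b c x x' * (x - x') ^ 2 := by
    have e4 : ((((y - y') / (x - x')) ^ 2 + (a + b + c) - x - x') *
      (((y + y') / (x - x')) ^ 2 + (a + b + c) - x - x') * (x - x') ^ 2) * (x - x') ^ 2 =
      ((((y - y') / (x - x')) ^ 2 + (a + b + c) - x - x') * (x - x') ^ 2) *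
      ((((y + y') / (x - x')) ^ 2 + (a + b + c) - x - x') * (x - x') ^ 2) := by ring
    rw [e4, e1, e2]
    have e5 : ((y - y') ^ 2 + (a + b + c - x - x') * (x - x') ^ 2) *
        ((y + y') ^ 2 + (a + b + c - x - x') * (x - x') ^ 2) =
        (y ^ 2 - y' ^ 2) ^ 2 + 2 * (y ^ 2 + y' ^ 2) * ((a + b + c - x - x') * (x - x') ^ 2) +
        ((a + b + c - x - x') * (x - x') ^ 2) ^ 2 := by ring
    rw [e5, h, h', num]
    ring
  exact mul_right_cancel₀ (pow_ne_zero 2 h0) e3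

theorem sum_eq {x x' y y' : L} (hx : x ≠ x') (h : y ^ 2 = (x - a) * (x - b) * (x - c))
    (h' : y' ^ 2 = (x' - a) * (x' - b) * (x' - c)) :
    ((((y - y') / (x - x')) ^ 2 + (a + b + c) - x - x') +
      (((y + y') / (x - x')) ^ 2 + (a + b + c) - x - x')) * (x - x') ^ 2 = 2 * den a b c x x' := by
  have h0 : x - x' ≠ 0 := sub_ne_zero.2 hx
  have e1 : (((y - y') / (x - x')) ^ 2 + (a + b + c) - x - x') * (x - x') ^ 2 =
      (y - y') ^ 2 + (a + b + c - x - x') * (x - x') ^ 2 := by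
    field_simp
    ring
  have e2 : (((y + y') / (x - x')) ^ 2 + (a + b + c) - x - x') * (x - x') ^ 2 =
      (y + y') ^ 2 + (a + b + c - x - x') * (x - x') ^ 2 := by
    field_simp
    ring
  rw [add_mul, e1, e2, den]
  linear_combination 2 * h + 2 * h'

end alg

section norm

variable {L : Type} [NormedField L] [IsUltrametricDist L] {a b c : L}

theorem norm_two_le : ‖(2 : L)‖ ≤ 1 := by
  have := IsUltrametricDist.norm_natCast_le_one L 2
  simpa using this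

theorem norm_four_le : ‖(4 : L)‖ ≤ 1 := by
  have := IsUltrametricDist.norm_natCast_le_one L 4
  simpa using this

theorem norm_add_lt {x y : L} {r : ℝ} (hx : ‖x‖ < r) (hy : ‖y‖ < r) : ‖x + y‖ < r :=
  lt_of_le_of_lt (IsUltrametricDist.norm_add_le_max x y) (max_lt hx hy)

theorem norm_add_le' {x y : L} {r : ℝ} (hx : ‖x‖ ≤ r) (hy : ‖y‖ ≤ r) : ‖x + y‖ ≤ r :=
  le_trans (IsUltrametricDist.norm_add_le_max x y) (max_le hx hy)

theorem norm_sub_le' {x y : L} {r : ℝ} (hx : ‖x‖ ≤ r) (hy : ‖y‖ ≤ r) : ‖x - y‖ ≤ r := by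
  rw [sub_eq_add_neg]
  exact norm_add_le' hx (by rwa [norm_neg])

theorem norm_add_dom {x y : L} (h : ‖y‖ < ‖x‖) : ‖x + y‖ = ‖x‖ := by
  rw [IsUltrametricDist.norm_add_eq_max_of_norm_ne_norm h.ne']
  exact max_eq_left h.le

theorem norm_sub_dom {x y : L} (h : ‖y‖ < ‖x‖) : ‖x - y‖ = ‖x‖ := by
  rw [sub_eq_add_neg]
  exact norm_add_dom (by rwa [norm_neg])

/-- bounds of the elementary symmetric functions -/
theorem symm_le {m : ℝ} (ha : ‖a‖ ≤ m) (hb : ‖b‖ ≤ m) (hc : ‖c‖ ≤ m) :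
    ‖a + b + c‖ ≤ m ∧ ‖a * b + b * c + c * a‖ ≤ m ^ 2 ∧ ‖a * b * c‖ ≤ m ^ 3 := by
  have hm : 0 ≤ m := (norm_nonneg a).trans ha
  have h2 : ∀ u v : L, ‖u‖ ≤ m → ‖v‖ ≤ m → ‖u * v‖ ≤ m ^ 2 := by
    intro u v hu hv
    rw [norm_mul, pow_two]
    exact mul_le_mul hu hv (norm_nonneg _) hm
  refine ⟨norm_add_le' (norm_add_le' ha hb) hc,
    norm_add_le' (norm_add_le' (h2 _ _ ha hb) (h2 _ _ hb hc)) (h2 _ _ hc ha), ?_⟩
  rw [norm_mul, pow_succ]
  exact mul_le_mul (h2 _ _ ha hb) hc (norm_nonneg _) (by positivity)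

theorem num_norm {m : ℝ} (ha : ‖a‖ ≤ m) (hb : ‖b‖ ≤ m) (hc : ‖c‖ ≤ m) {x x' : L} (hx : m < ‖x‖)
    (hx' : m < ‖x'‖) : ‖num a b c x x'‖ = (‖x‖ * ‖x'‖) ^ 2 := by
  have hm : 0 ≤ m := (norm_nonneg a).trans ha
  obtain ⟨s1, s2, s3⟩ := symm_le ha hb hc
  have h0 : m ^ 2 < ‖x‖ * ‖x'‖ := by
    rw [pow_two]
    exact mul_lt_mul'' hx hx' hm hm
  have h1 : ‖x * x' - (a * b + b * c + c * a)‖ = ‖x‖ * ‖x'‖ := by
    rw [norm_sub_dom, norm_mul]
    rw [norm_mul]
    exact s2.trans_lt h0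
  have h2 : ‖(x * x' - (a * b + b * c + c * a)) ^ 2‖ = (‖x‖ * ‖x'‖) ^ 2 := by
    rw [norm_pow, h1]
  have h3 : ‖4 * (a * b * c) * (x + x' - (a + b + c))‖ < (‖x‖ * ‖x'‖) ^ 2 := by
    have h4 : ‖x + x' - (a + b + c)‖ ≤ max ‖x‖ ‖x'‖ := by
      refine norm_sub_le' (norm_add_le' (le_max_left _ _) (le_max_right _ _)) ?_
      exact s1.trans (hx.le.trans (le_max_left _ _))
    have h5 : ‖4 * (a * b * c)‖ ≤ m ^ 3 := by
      rw [norm_mul]
      calc ‖(4 : L)‖ * ‖a * b * c‖ ≤ 1 * m ^ 3 :=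
            mul_le_mul norm_four_le s3 (norm_nonneg _) zero_le_one
        _ = m ^ 3 := one_mul _
    have h6 : 0 < max ‖x‖ ‖x'‖ := lt_of_lt_of_le (hm.trans_lt hx) (le_max_left _ _)
    have h7 : m ^ 3 * max ‖x‖ ‖x'‖ < (‖x‖ * ‖x'‖) ^ 2 := by
      have h8 : max ‖x‖ ‖x'‖ * min ‖x‖ ‖x'‖ = ‖x‖ * ‖x'‖ := max_mul_min _ _
      have h9 : m < min ‖x‖ ‖x'‖ := lt_min hx hx'
      have h10 : m < max ‖x‖ ‖x'‖ := hx.trans_le (le_max_left _ _)
      rw [← h8]
      have h11 : m ^ 3 < max ‖x‖ ‖x'‖ * min ‖x‖ ‖x'‖ ^ 2 := by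
        have : m ^ 3 = m * m ^ 2 := by ring
        rw [this]
        exact mul_lt_mul'' h10 (pow_lt_pow_left₀ h9 hm two_ne_zero) hm (by positivity)
      calc m ^ 3 * max ‖x‖ ‖x'‖ < (max ‖x‖ ‖x'‖ * min ‖x‖ ‖x'‖ ^ 2) * max ‖x‖ ‖x'‖ :=
            mul_lt_mul_of_pos_right h11 h6
        _ = (max ‖x‖ ‖x'‖ * min ‖x‖ ‖x'‖) ^ 2 := by ring
    calc ‖4 * (a * b * c) * (x + x' - (a + b + c))‖ = ‖4 * (a * b * c)‖ * ‖x + x' - (a + b + c)‖ :=
          norm_mul _ _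
      _ ≤ m ^ 3 * max ‖x‖ ‖x'‖ := mul_le_mul h5 h4 (norm_nonneg _) (by positivity)
      _ < _ := h7
  rw [num, norm_add_dom, h2]
  rw [h2]
  exact h3

theorem den_norm {m : ℝ} (ha : ‖a‖ ≤ m) (hb : ‖b‖ ≤ m) (hc : ‖c‖ ≤ m) {x x' : L} (hx : m < ‖x‖)
    (hx' : m < ‖x'‖) : ‖2 * den a b c x x'‖ ≤ max ‖x‖ ‖x'‖ * (‖x‖ * ‖x'‖) := by
  have hm : 0 ≤ m := (norm_nonneg a).trans ha
  obtain ⟨s1, s2, s3⟩ := symm_le ha hb hc
  have h0 : m ^ 2 < ‖x‖ * ‖x'‖ := by
    rw [pow_two]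
    exact mul_lt_mul'' hx hx' hm hm
  have h10 : m < max ‖x‖ ‖x'‖ := hx.trans_le (le_max_left _ _)
  have h11 : 0 ≤ max ‖x‖ ‖x'‖ := hm.trans h10.le
  have h12 : 0 ≤ ‖x‖ * ‖x'‖ := by positivity
  have h13 : ‖x * x'‖ = ‖x‖ * ‖x'‖ := norm_mul _ _
  have h1 : ‖(x + x') * (x * x' + (a * b + b * c + c * a))‖ ≤ max ‖x‖ ‖x'‖ * (‖x‖ * ‖x'‖) := by
    rw [norm_mul]
    refine mul_le_mul (IsUltrametricDist.norm_add_le_max x x') ?_ (norm_nonneg _) h11
    exact norm_add_le' h13.le (s2.trans h0.le)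
  have h2 : ‖2 * (a + b + c) * (x * x')‖ ≤ max ‖x‖ ‖x'‖ * (‖x‖ * ‖x'‖) := by
    rw [norm_mul, h13]
    refine mul_le_mul ?_ le_rfl h12 h11
    rw [norm_mul]
    calc ‖(2 : L)‖ * ‖a + b + c‖ ≤ 1 * m := mul_le_mul norm_two_le s1 (norm_nonneg _) zero_le_one
      _ = m := one_mul _
      _ ≤ _ := h10.le
  have h3 : ‖2 * (a * b * c)‖ ≤ max ‖x‖ ‖x'‖ * (‖x‖ * ‖x'‖) := by
    rw [norm_mul]
    calc ‖(2 : L)‖ * ‖a * b * c‖ ≤ 1 * m ^ 3 := mul_le_mul norm_two_le s3 (norm_nonneg _) zero_le_one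
      _ = m * m ^ 2 := by ring
      _ ≤ _ := mul_le_mul h10.le h0.le (by positivity) h11
  have h4 : ‖den a b c x x'‖ ≤ max ‖x‖ ‖x'‖ * (‖x‖ * ‖x'‖) := norm_sub_le' (norm_sub_le' h1 h2) h3
  rw [norm_mul]
  calc ‖(2 : L)‖ * ‖den a b c x x'‖ ≤ 1 * (max ‖x‖ ‖x'‖ * (‖x‖ * ‖x'‖)) :=
        mul_le_mul norm_two_le h4 (norm_nonneg _) zero_le_one
    _ = _ := one_mul _

/-- the abscissa of the sum of two points with distinct abscissas -/
theorem add_norm {m : ℝ} (ha : ‖a‖ ≤ m) (hb : ‖b‖ ≤ m) (hc : ‖c‖ ≤ m) {x x' y y' : L}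
    (hx : m < ‖x‖) (hx' : m < ‖x'‖) (hne : x ≠ x')
    (h : y ^ 2 = (x - a) * (x - b) * (x - c)) (h' : y' ^ 2 = (x' - a) * (x' - b) * (x' - c)) :
    min ‖x‖ ‖x'‖ ≤ ‖((y - y') / (x - x')) ^ 2 + (a + b + c) - x - x'‖ := by
  have hm : 0 ≤ m := (norm_nonneg a).trans ha
  have hp := congrArg norm (prod_eq hne h h')
  have hs := congrArg norm (sum_eq hne h h')
  rw [num_norm ha hb hc hx hx', norm_mul, norm_mul, norm_pow] at hp
  have hd := den_norm ha hb hc hx hx'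
  rw [norm_mul, norm_pow] at hs
  rw [← hs] at hd
  set U := ((y - y') / (x - x')) ^ 2 + (a + b + c) - x - x' with hU
  set V := ((y + y') / (x - x')) ^ 2 + (a + b + c) - x - x' with hV
  have hM : ‖x - x'‖ ≤ max ‖x‖ ‖x'‖ := norm_sub_le' (le_max_left _ _) (le_max_right _ _)
  have h8 : max ‖x‖ ‖x'‖ * min ‖x‖ ‖x'‖ = ‖x‖ * ‖x'‖ := max_mul_min _ _
  rw [← h8] at hp hd
  have hμ : 0 < min ‖x‖ ‖x'‖ := hm.trans_lt (lt_min hx hx')
  have hM0 : 0 < max ‖x‖ ‖x'‖ := lt_of_lt_of_le (hm.trans_lt hx) (le_max_left _ _)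
  set M := max ‖x‖ ‖x'‖ with hMdef
  set μ := min ‖x‖ ‖x'‖ with hμdef
  have hM2 : ‖x - x'‖ ^ 2 ≤ M ^ 2 := pow_le_pow_left₀ (norm_nonneg _) hM 2
  rcases le_or_gt ‖V‖ ‖U‖ with hVU | hUV
  · have h1 : (M * μ) ^ 2 ≤ ‖U‖ ^ 2 * M ^ 2 := by
      rw [← hp, pow_two ‖U‖]
      exact mul_le_mul (mul_le_mul le_rfl hVU (norm_nonneg _) (norm_nonneg _)) hM2 (by positivity)
        (by positivity)
    have h2 : μ ^ 2 ≤ ‖U‖ ^ 2 := by
      rw [mul_pow, mul_comm] at h1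
      exact le_of_mul_le_mul_right h1 (by positivity)
    exact le_of_sq_le_sq h2 (norm_nonneg _)
  · have h1 : ‖U + V‖ = ‖V‖ := by
      rw [add_comm]
      exact norm_add_dom hUV
    rw [h1] at hd
    have h2 : (M * μ) ^ 2 ≤ ‖U‖ * (M * (M * μ)) := by
      rw [← hp, mul_assoc]
      exact mul_le_mul_of_nonneg_left hd (norm_nonneg _)
    have h3 : μ * (M * (M * μ)) ≤ ‖U‖ * (M * (M * μ)) := by
      calc μ * (M * (M * μ)) = (M * μ) ^ 2 := by ring
        _ ≤ _ := h2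
    exact le_of_mul_le_mul_right h3 (by positivity)

end norm

section points

variable {L : Type} [NormedField L] [IsUltrametricDist L] [DecidableEq L] {a b c : L}

theorem bg_zero (r : ℝ) : Bg r (0 : (crv a b c).toAffine.Point) := trivial

/-- doubling -/
theorem bg_double {m r : ℝ} (ha : ‖a‖ ≤ m) (hb : ‖b‖ ≤ m) (hc : ‖c‖ ≤ m) (hr : m < r)
    (P : (crv a b c).toAffine.Point) (hP : Bg r P) : Bg (r / ‖(2 : L)‖ ^ 2) (P + P) := by
  rcases P with _ | ⟨x, y, h⟩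
  · exact bg_zero _
  · have hx : r ≤ ‖x‖ := hP
    by_cases hY : y = (crv a b c).toAffine.negY x y
    · rw [Affine.Point.add_self_of_Y_eq hY]
      exact bg_zero _
    · rw [Affine.Point.add_self_of_Y_ne hY]
      have hY' : y ≠ -y := by rwa [neg_Y] at hY
      have h2y : y - -y ≠ 0 := sub_ne_zero.2 hY'
      have he : y ^ 2 = (x - a) * (x - b) * (x - c) := eqn.1 h.1
      show r / ‖(2 : L)‖ ^ 2 ≤ ‖(crv a b c).toAffine.addX x x ((crv a b c).toAffine.slope x x y y)‖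
      rw [add_X, Affine.slope_of_Y_ne rfl hY, neg_Y]
      have hmx : m < ‖x‖ := hr.trans_le hx
      have hm : 0 ≤ m := (norm_nonneg a).trans ha
      have hx0 : 0 < ‖x‖ := hm.trans_lt hmx
      have h20 : (2 : L) ≠ 0 := by
        intro h0
        apply h2y
        linear_combination y * h0
      have h2n : 0 < ‖(2 : L)‖ := norm_pos_iff.2 h20
      set W := ((3 * x ^ 2 + 2 * (crv a b c).a₂ * x + (crv a b c).a₄ - (crv a b c).a₁ * y) /
        (y - -y)) ^ 2 + (a + b + c) - x - x with hW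
      have h1 : W * (y - -y) ^ 2 = num a b c x x := by
        have h2 : W * (y - -y) ^ 2 = (3 * x ^ 2 + 2 * (crv a b c).a₂ * x + (crv a b c).a₄ -
            (crv a b c).a₁ * y) ^ 2 + (a + b + c - x - x) * (y - -y) ^ 2 := by
          have key : ∀ N D A : L, D ≠ 0 → ((N / D) ^ 2 + A - x - x) * D ^ 2 =
              N ^ 2 + (A - x - x) * D ^ 2 := by
            intro N D A hD
            have : (N / D) ^ 2 * D ^ 2 = N ^ 2 := by
              rw [← mul_pow, div_mul_cancel₀ _ hD]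
            linear_combination this
          exact key _ _ _ h2y
        rw [h2, num]
        simp only [crv]
        linear_combination (4 * (a + b + c - x - x)) * he
      have h3 := congrArg norm h1
      rw [norm_mul, num_norm ha hb hc hmx hmx] at h3
      have h4 : ‖(y - -y) ^ 2‖ = ‖(2 : L)‖ ^ 2 * ‖x‖ ^ 3 := by
        have h5 : (y - -y) ^ 2 = 2 ^ 2 * ((x - a) * (x - b) * (x - c)) := by
          linear_combination 4 * he
        rw [h5, norm_mul, norm_pow, norm_mul, norm_mul, norm_sub_dom (ha.trans_lt hmx),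
          norm_sub_dom (hb.trans_lt hmx), norm_sub_dom (hc.trans_lt hmx)]
        ring
      rw [h4] at h3
      have h6 : ‖W‖ * ‖(2 : L)‖ ^ 2 = ‖x‖ := by
        have h7 : (‖W‖ * ‖(2 : L)‖ ^ 2) * ‖x‖ ^ 3 = ‖x‖ * ‖x‖ ^ 3 := by
          calc (‖W‖ * ‖(2 : L)‖ ^ 2) * ‖x‖ ^ 3 = ‖W‖ * (‖(2 : L)‖ ^ 2 * ‖x‖ ^ 3) := by ring
            _ = (‖x‖ * ‖x‖) ^ 2 := h3
            _ = _ := by ring
        exact mul_right_cancel₀ (pow_ne_zero 3 hx0.ne') h7
      rw [div_le_iff₀ (by positivity), h6]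
      exact hx

theorem bg_add {m r : ℝ} (ha : ‖a‖ ≤ m) (hb : ‖b‖ ≤ m) (hc : ‖c‖ ≤ m) (hr : m < r)
    (P Q : (crv a b c).toAffine.Point) (hP : Bg r P) (hQ : Bg r Q) : Bg r (P + Q) := by
  rcases P with _ | ⟨x, y, h⟩
  · rw [← Affine.Point.zero_def, zero_add]
    exact hQ
  rcases Q with _ | ⟨x', y', h'⟩
  · rw [← Affine.Point.zero_def, add_zero]
    exact hP
  have hx : r ≤ ‖x‖ := hP
  have hx' : r ≤ ‖x'‖ := hQ
  by_cases hne : x = x'
  · by_cases hY : y = (crv a b c).toAffine.negY x' y'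
    · rw [Affine.Point.add_of_Y_eq hne hY]
      exact bg_zero _
    · have hyy : y = y' := Affine.Y_eq_of_Y_ne h.1 h'.1 hne hY
      subst hne
      subst hyy
      have h1 := bg_double ha hb hc hr _ hP
      by_cases h20 : (2 : L) = 0
      · exfalso
        apply hY
        rw [neg_Y]
        linear_combination y * h20
      · have h2n : 0 < ‖(2 : L)‖ := norm_pos_iff.2 h20
        have h3 : r ≤ r / ‖(2 : L)‖ ^ 2 := by
          have hm : 0 ≤ m := (norm_nonneg a).trans ha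
          rw [le_div_iff₀ (by positivity)]
          have h4 : ‖(2 : L)‖ ^ 2 ≤ 1 := pow_le_one₀ (norm_nonneg _) norm_two_le
          have h5 : 0 ≤ r := hm.trans hr.le
          nlinarith
        revert h1
        generalize (Affine.Point.some x y h + Affine.Point.some x y h :
          (crv a b c).toAffine.Point) = R
        rcases R with _ | ⟨z, w, k⟩
        · exact fun _ => bg_zero _
        · exact fun h1 => h3.trans h1
  · rw [Affine.Point.add_of_X_ne hne]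
    show r ≤ ‖(crv a b c).toAffine.addX x x' ((crv a b c).toAffine.slope x x' y y')‖
    rw [add_X, Affine.slope_of_X_ne hne]
    exact (le_min hx hx').trans
      (add_norm ha hb hc (hr.trans_le hx) (hr.trans_le hx') hne (eqn.1 h.1) (eqn.1 h'.1))

end points

/-- **E1** -/
theorem e1 : S_E1 := by
  intro L _ _ _ a b c hab hbc hac r hr
  have ha : ‖a‖ ≤ max ‖a‖ (max ‖b‖ ‖c‖) := le_max_left _ _
  have hb : ‖b‖ ≤ max ‖a‖ (max ‖b‖ ‖c‖) := (le_max_left _ _).trans (le_max_right _ _)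
  have hc : ‖c‖ ≤ max ‖a‖ (max ‖b‖ ‖c‖) := (le_max_right _ _).trans (le_max_right _ _)
  refine ⟨bg_add ha hb hc hr, ?_, fun _ => bg_double ha hb hc hr⟩
  intro P hP
  rcases P with _ | ⟨x, y, h⟩
  · exact bg_zero _
  · rw [Affine.Point.neg_some]
    exact hP

end Pool.Agent.Zk95.HT
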