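import Mathlib
import Pool.Agent.Zk12.HT.Stm

/-!
# Local evaluation (project HT, part E)
-/

set_option autoImplicit false
set_option linter.all false

namespace Pool.Agent.Zk95.HT

open Pool.Agent.TH954 Pool.Agent.Zk12.HT

/-- an element fixed by all automorphisms is in the base field -/
theorem mem_base {L C : Type} [Field L] [CharZero L] [Field C] [Algebra L C] [IsAlgClosure L C]
    (c : C) (h : ∀ σ : C ≃ₐ[L] C, σ c = c) : ∃ q : L, c = algebraMap L C q := by
  haveI : IsAlgClosed C := IsAlgClosure.isAlgClosed L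
  haveI : Algebra.IsAlgebraic L C := IsAlgClosure.isAlgebraic
  haveI : IsGalois L C := inferInstance
  obtain ⟨q, hq⟩ := (InfiniteGalois.mem_bot_iff_fixed c).2 h
  exact ⟨q, hq.symm⟩

/-- **part E** -/
theorem eval : S_EVAL := by
  intro L k F Ω B C _ _ _ _ _ _ _ _ _ _ _ _ _ _ _ _ _ _ _ s ι pl hs hι S hS w hw c hc
  haveI : IsAlgClosed B := IsAlgClosure.isAlgClosed k
  haveI : Normal k B := IsAlgClosure.normal k B
  refine mem_base c fun σ => ?_
  letI : Algebra B C := (ι : B →+* C).toAlgebra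
  haveI : IsScalarTower k B C := IsScalarTower.of_algebraMap_eq fun x => (ι.commutes x).symm
  let χ : C ≃ₐ[k] C := σ.restrictScalars k
  let g : B ≃ₐ[k] B := χ.restrictNormal B
  have hg : ∀ z, ι (g z) = σ (ι z) := fun z => AlgEquiv.restrictNormal_commutes χ B z
  have h1 : s.s g w = w := hw g fun z hz => by
    apply (ι : B →+* C).injective
    change ι (g z) = ι z
    obtain ⟨q, hq⟩ := hS z hz
    rw [hg, hq, σ.commutes]
  have h2 := hs σ g (fun z c' hz => by
    have h3 : c' = ι z := by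
      obtain ⟨a, ha⟩ := hz
      obtain ⟨b, hb⟩ := hι z
      rw [← ha, ← hb]
    rw [h3, ← hg]
    exact hι (g z)) w c hc
  rw [h1] at h2
  obtain ⟨a, ha⟩ := h2
  obtain ⟨b, hb⟩ := hc
  rw [← ha, ← hb]

end Pool.Agent.Zk95.HT
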