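import Mathlib
import Pool.Agent.Zk12.HT.Stm
import Pool.Agent.N890.KO.All

/-!
# Koenigsmann's theorem over finite extensions of `ℚ_p` (project HT, part D)
-/

set_option autoImplicit false
set_option linter.all false

open NumberField IsDedekindDomain

namespace Pool.Agent.Zk95.HT

open Pool.Agent.TH954 Pool.Agent.N890.KO Pool.Agent.Zk12.HT

theorem exists_cpl (p : ℕ) [Fact p.Prime] (L : Type) [Field L] [Algebra ℚ_[p] L]
    [FiniteDimensional ℚ_[p] L] : ∃ V q, Cpl L V q := by
  letI i1 : NontriviallyNormedField L := spectralNorm.nontriviallyNormedField ℚ_[p] L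
  letI i2 : NormedAlgebra ℚ_[p] L := spectralNorm.normedAlgebra ℚ_[p] L
  haveI i3 : IsUltrametricDist L :=
    IsUltrametricDist.isUltrametricDist_of_forall_norm_add_le_max_norm
      (fun x y => isNonarchimedean_spectralNorm (K := ℚ_[p]) (L := L) x y)
  haveI i4 : CompleteSpace L := spectralNorm.completeSpace ℚ_[p] L
  haveI i5 : ProperSpace L := FiniteDimensional.proper ℚ_[p] L
  exact LOC.aux L

/-- the theorem of Koenigsmann over a complete field, for a given embedding -/
theorem koeV (L : Type) [Field L] [CharZero L] (V : AbsoluteValue (AlgebraicClosure L) ℝ) (q : ℕ)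
    (hV : Cpl L V q) (k F Ω B : Type) [Field k] [Field F] [Field Ω] [Field B]
    [Algebra k L] [Algebra k F] [Algebra F Ω] [Algebra k Ω] [Algebra k B] [IsScalarTower k F Ω]
    [IsAlgClosure F Ω] [IsAlgClosure k B] (s : GalSection k F Ω B)
    (ι : B →ₐ[k] AlgebraicClosure L) :
    ∃ pl : Plc k Ω (AlgebraicClosure L), s.GivenBy L pl ∧ ∀ z : B, pl.val (s.j z) (ι z) := by
  have c1 : CharZero k := by
    refine ⟨fun a b h => ?_⟩
    have h1 := congrArg (algebraMap k L) h
    rw [map_natCast, map_natCast] at h1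
    exact Nat.cast_injective h1
  have c2 : IsAlgClosed Ω := IsAlgClosure.isAlgClosed F
  have c3 : IsAlgClosed B := IsAlgClosure.isAlgClosed k
  have c4 : Algebra.IsAlgebraic k B := IsAlgClosure.isAlgebraic
  obtain ⟨v, π, hv, hG, hcpl⟩ := s_KK L V q hV k B ι
  have c5 : CharZero (kk ι) := charZero_of_injective_algebraMap (algebraMap k (kk ι)).injective
  have c6 : IsAlgClosure (kk ι) B := ⟨c3, Algebra.IsAlgebraic.tower_top (K := k) (kk ι)⟩
  have hA := act_of_section s_CNT s (kk ι)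
  obtain ⟨O, hO1, hO2⟩ := s_EXT (kk ι) B Ω s.j (sAct s (kk ι)) hA v q π hG
  have hO3 := s_APM (kk ι) B Ω s.j (sAct s (kk ι)) hA v q π hG O hO1 hO2
  obtain ⟨W, ρ, h1, h2, h3⟩ := s_PHI (kk ι) B Ω (AlgebraicClosure L) s.j
    (sAct s (kk ι)) hA v q π hG O hO1 hO2 hO3 ι V hV.na hv hcpl
  refine ⟨⟨W, ρ, h1, fun c => ?_⟩, ?_, ?_⟩
  · obtain ⟨h, e⟩ := h2 (algebraMap k B c)
    have e1 : (s.j : B →+* Ω) (algebraMap k B c) = algebraMap k Ω c := s.j.commutes c
    have e2 : (ι : B →+* AlgebraicClosure L) (algebraMap k B c) =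
      algebraMap k _ c := ι.commutes c
    rw [e2] at e
    refine ⟨by rw [← e1]; exact h, ?_⟩
    rw [← e]
    congr 1
    exact Subtype.ext e1.symm
  · intro σ g hg x c hx
    have h4 : ∀ z, σ (ι z) = ι (g z) := by
      intro z
      obtain ⟨h5, h6⟩ := h2 z
      obtain ⟨h7, h8⟩ := h2 (g z)
      obtain ⟨h9, h10⟩ := hg z (ι z) ⟨h5, h6⟩
      exact h10.symm.trans h8
    -- `g` fixes the elements of `kk ι`
    have h5 : ∀ z : kk ι, g z = z := by
      rintro ⟨z, x, hx⟩
      apply ι.injective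
      change ι (g z) = ι z
      rw [← h4 z, hx, σ.commutes]
    let τ : B ≃ₐ[kk ι] B := AlgEquiv.ofRingEquiv (f := (g : B ≃+* B)) (fun z => h5 z)
    have hτ : τ.restrictScalars k = g := by
      ext z
      rfl
    obtain ⟨h', e'⟩ := h3 (σ : _ ≃+* _) τ (fun c => hV.inv σ c) (fun b => h4 b) x hx.1
    have e3 : sAct s (kk ι) τ x = s.s g x := by
      rw [sAct_apply, hτ]
    refine ⟨by rw [← e3]; exact h', ?_⟩
    have e4 : ρ ⟨x, hx.1⟩ = c := hx.2
    rw [e4] at e'
    rw [← show (σ : _ ≃+* _) c = σ c from rfl, ← e']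
    congr 1
  · intro z
    obtain ⟨h, e⟩ := h2 z
    exact ⟨h, e⟩

/-- **part D** -/
theorem koel : S_KOEL := by
  intro p _ L k F Ω B C _ _ _ _ _ _ _ _ _ _ _ _ _ _ _ _ _ _ _ _ s ι
  haveI : CharZero L := charZero_of_injective_algebraMap (algebraMap ℚ_[p] L).injective
  obtain ⟨V, q, hV⟩ := exists_cpl p L
  let Θ : AlgebraicClosure L ≃ₐ[L] C := IsAlgClosure.equiv L (AlgebraicClosure L) C
  have hΘ : ∀ x : k, Θ (algebraMap k (AlgebraicClosure L) x) = algebraMap k C x := fun x => by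
    rw [IsScalarTower.algebraMap_apply k L (AlgebraicClosure L), Θ.commutes,
      ← IsScalarTower.algebraMap_apply]
  let ι' : B →ₐ[k] AlgebraicClosure L :=
    { (Θ.symm : C →+* AlgebraicClosure L).comp (ι : B →+* C) with
      commutes' := fun x => by
        change Θ.symm (ι (algebraMap k B x)) = _
        rw [ι.commutes, ← hΘ, Θ.symm_apply_apply] }
  have hι' : ∀ z, ι' z = Θ.symm (ι z) := fun z => rfl
  obtain ⟨pl, hpl, hval⟩ := koeV L V q hV k F Ω B s ι'
  let r : Plc k Ω C :=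
    { W := pl.W
      ρ := (Θ : _ →+* C).comp pl.ρ
      loc := fun x hx => pl.loc x (by
        intro h
        apply hx
        rw [RingHom.comp_apply, h, map_zero])
      comm := fun c => by
        obtain ⟨h, e⟩ := pl.comm c
        refine ⟨h, ?_⟩
        rw [RingHom.comp_apply, e]
        exact hΘ c }
  have hr : ∀ x c, r.val x c ↔ pl.val x (Θ.symm c) := by
    intro x c
    constructor
    · rintro ⟨h, e⟩
      refine ⟨h, ?_⟩
      rw [← e]
      exact (Θ.symm_apply_apply _).symm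
    · rintro ⟨h, e⟩
      refine ⟨h, ?_⟩
      change Θ (pl.ρ ⟨x, h⟩) = c
      rw [e, Θ.apply_symm_apply]
  refine ⟨r, ?_, fun z => ?_⟩
  · intro σ g hg x c hx
    let σ' : AlgebraicClosure L ≃ₐ[L] AlgebraicClosure L := (Θ.trans σ).trans Θ.symm
    have hσ' : ∀ y, σ' y = Θ.symm (σ (Θ y)) := fun y => rfl
    rw [hr] at hx ⊢
    have h1 := hpl σ' g (fun z c' hz => by
      have h2 := hg z (Θ c') ((hr _ _).2 (by rwa [Θ.symm_apply_apply]))
      rw [hσ']
      exact (hr _ _).1 h2) x _ hx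
    rwa [hσ', Θ.apply_symm_apply] at h1
  · rw [hr, ← hι']
    exact hval z

end Pool.Agent.Zk95.HT
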