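import Mathlib
import Pool.Agent.Zk80.HT.ObStm
import Pool.Agent.TH954.SObs2
import Pool.Agent.Y791.BS.Loc

/-!
# Project HT+, the obstruction over finitely generated fields: completions and glue
-/

set_option autoImplicit false
set_option linter.all false

open Polynomial NumberField IsDedekindDomain

namespace Pool.Agent.Zk95.HT

open Pool.Agent.Zk12.HT Pool.Agent.Zk80.HT Pool.Agent.TH954

/-- the completions are proper normed fields -/
theorem prop : S_PROP := by
  intro F _ _ w
  exact ⟨w.adicCompletion F, Pool.Agent.Y791.BS.nnf w, Pool.Agent.Y791.BS.proper w,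
    ⟨RingEquiv.refl _⟩⟩

theorem ev_C {n : ℕ} {R : Type} [CommRing R] (i : ℚ →+* R) (t : Fin n → R) (θ : R) (P : A n) :
    ev i t θ (C P) = evt i t P := by
  simp [ev]

theorem ev_X {n : ℕ} {R : Type} [CommRing R] (i : ℚ →+* R) (t : Fin n → R) (θ : R) :
    ev i t θ X = θ := by
  simp [ev]

theorem hom_evt {n : ℕ} {R S : Type} [CommRing R] [CommRing S] (i : ℚ →+* R) (t : Fin n → R)
    (g : R →+* S) : g.comp (evt i t) = evt (g.comp i) (fun r => g (t r)) := by
  apply MvPolynomial.ringHom_ext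
  · intro r
    simp [evt]
  · intro r
    simp [evt]

theorem hom_ev {n : ℕ} {R S : Type} [CommRing R] [CommRing S] (i : ℚ →+* R) (t : Fin n → R) (θ : R)
    (g : R →+* S) : g.comp (ev i t θ) = ev (g.comp i) (fun r => g (t r)) (g θ) := by
  apply Polynomial.ringHom_ext
  · intro r
    rw [RingHom.comp_apply, ev_C, ev_C, ← hom_evt]
    rfl
  · rw [RingHom.comp_apply, ev_X, ev_X]

/-- constants -/
theorem ev_map {n : ℕ} {R : Type} [CommRing R] (i : ℚ →+* R) (t : Fin n → R) (θ : R) (p : ℚ[X]) :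
    ev i t θ (p.map MvPolynomial.C) = p.eval₂ i θ := by
  have h : (evt i t).comp MvPolynomial.C = i := by
    ext r
    simp [evt]
  rw [ev, Polynomial.coe_eval₂RingHom, Polynomial.eval₂_map, h]

/-- specialisation at rational points -/
theorem evt_cast {n : ℕ} {R : Type} [Field R] [CharZero R] (i : ℚ →+* R) (a : Fin n → ℚ) :
    evt i (fun r => (a r : R)) = i.comp (MvPolynomial.eval a) := by
  apply MvPolynomial.ringHom_ext
  · intro r
    simp [evt]
  · intro r
    simp [evt]

theorem ev_cast {n : ℕ} {R : Type} [Field R] [CharZero R] (i : ℚ →+* R) (a : Fin n → ℚ) (θ : R)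
    (P : (A n)[X]) :
    ev i (fun r => (a r : R)) θ P = (P.map (MvPolynomial.eval a)).eval₂ i θ := by
  rw [ev, Polynomial.coe_eval₂RingHom, Polynomial.eval₂_map, evt_cast]

/-- the obstruction for a polynomial over a number field -/
theorem obs_poly (F : Type) [Field F] [NumberField F] (fa : F[X]) (hfam : fa.Monic)
    (hfaroot : ∀ y : F, fa.eval y ≠ 0) : ∃ (l : ℕ) (b : F), 1 ≤ l ∧ ∀ c₀ : F, c₀ ≠ 0 →
    ∃ v : HeightOneSpectrum (𝓞 F), ∀ z : v.adicCompletion F,
      (fa.map (algebraMap F (v.adicCompletion F))).eval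
        (algebraMap F (v.adicCompletion F) b + algebraMap F (v.adicCompletion F) c₀ * z ^ l) ≠ 0 := by
  classical
  set Ta : Finset (AlgebraicClosure F) := (fa.aroots (AlgebraicClosure F)).toFinset with hTa
  have hmemTa : ∀ θ, θ ∈ Ta ↔ aeval θ fa = 0 := by
    intro θ
    rw [hTa, Multiset.mem_toFinset, mem_aroots]
    exact ⟨fun h => h.2, fun h => ⟨hfam.ne_zero, h⟩⟩
  obtain ⟨l, b, hl, hob⟩ := obstruct (K := F) Ta (by
      intro σ θ hθ
      rw [hmemTa] at hθ ⊢
      have h1 : aeval (σ θ) fa = σ (aeval θ fa) := aeval_algHom_apply σ.toAlgHom θ _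
      rw [h1, hθ, map_zero]) (by
      intro θ hθ
      rw [hmemTa] at hθ
      by_contra hcon
      push Not at hcon
      obtain ⟨y, hy⟩ := base_of_fixed hcon
      apply hfaroot y
      rw [← hy, aeval_algebraMap_apply, _root_.map_eq_zero] at hθ
      rw [← hθ]
      rfl)
  refine ⟨l, b, hl, fun c₀ hc₀ => ?_⟩
  obtain ⟨v, hv⟩ := hob c₀ hc₀
  refine ⟨v, fun z h00 => ?_⟩
  set Ac := AlgebraicClosure (v.adicCompletion F) with hAc
  let ι₀ : AlgebraicClosure F →ₐ[F] Ac := IsAlgClosed.lift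
  have h1 : (fa.map (algebraMap F Ac)).eval (algebraMap F Ac b +
      algebraMap F Ac c₀ * algebraMap (v.adicCompletion F) Ac z ^ l) = 0 := by
    have h2 := congrArg (algebraMap (v.adicCompletion F) Ac) h00
    rw [map_zero, ← eval_map_apply, Polynomial.map_map, map_add, map_mul, map_pow,
      ← IsScalarTower.algebraMap_eq F (v.adicCompletion F) Ac,
      ← IsScalarTower.algebraMap_apply F (v.adicCompletion F) Ac,
      ← IsScalarTower.algebraMap_apply F (v.adicCompletion F) Ac] at h2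
    exact h2
  have h3 : (fa.map (algebraMap F Ac)) = ((fa.map (algebraMap F (AlgebraicClosure F))).map
      (ι₀ : AlgebraicClosure F →+* Ac)) := by
    rw [Polynomial.map_map, ι₀.comp_algebraMap]
  have h4 : (fa.map (algebraMap F (AlgebraicClosure F))) =
      ((fa.aroots (AlgebraicClosure F)).map (fun θ => X - C θ)).prod := by
    have h5 := (IsAlgClosed.splits (fa.map (algebraMap F (AlgebraicClosure F)))).eq_prod_roots
    rw [(hfam.map _).leadingCoeff, C_1, one_mul] at h5
    exact h5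
  rw [h3, h4, Polynomial.map_multiset_prod, Multiset.map_map, eval_multiset_prod,
    Multiset.prod_eq_zero_iff, Multiset.map_map, Multiset.mem_map] at h1
  obtain ⟨θ, hθ, h5⟩ := h1
  simp only [Function.comp_apply, Polynomial.map_sub, map_X, map_C, eval_sub, eval_X,
    eval_C] at h5
  refine hv ι₀ θ (by rw [hTa, Multiset.mem_toFinset]; exact hθ) z ?_
  rw [map_sub, ι₀.commutes, map_mul, map_pow]
  have h6 : algebraMap (v.adicCompletion F) Ac (algebraMap F (v.adicCompletion F) c₀) =
      algebraMap F Ac c₀ := (IsScalarTower.algebraMap_apply F (v.adicCompletion F) Ac c₀).symm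
  rw [h6]
  have h7 : (ι₀ : AlgebraicClosure F →+* Ac) θ = ι₀ θ := rfl
  rw [h7, sub_eq_zero] at h5
  rw [← h5]
  ring

/-- the local part, over an abstract number field -/
theorem local_part (hEMBK : S_EMBK) (hDIVK : S_DIVK) (hAPPK : S_APPK) (hPROP : S_PROP)
    (n : ℕ) (k : Type) [Field k] [CharZero k] (t : Fin n → k) (θ₀ : k) (m : (A n)[X]) (D : A n)
    (f : (A n)[X][X]) (a : Fin n → ℚ) (hpres : Pres (Rat.castHom k) t θ₀ m) (hD : D ≠ 0)
    (hfm : f.Monic) (F : Type) [Field F] [NumberField F] (θ' : F)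
    (hmF : ev (Rat.castHom F) (fun i => (a i : F)) θ' m = 0)
    (hmF' : ev (Rat.castHom F) (fun i => (a i : F)) θ' (derivative m) ≠ 0)
    (hfaroot : ∀ y : F, (f.map (ev (Rat.castHom F) (fun i => (a i : F)) θ')).eval y ≠ 0)
    (hsurj : ∀ b : F, ∃ β : (A n)[X], ev (Rat.castHom F) (fun i => (a i : F)) θ' β = b) :
    ∃ (l : ℕ) (β : (A n)[X]), 1 ≤ l ∧ ∀ c : k, c ≠ 0 →
      ∃ (v : HeightOneSpectrum (𝓞 F)) (φ : k →+* v.adicCompletion F), ∀ z : v.adicCompletion F,
        (f.map (φ.comp (ev (Rat.castHom k) t θ₀))).eval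
          (φ (ev (Rat.castHom k) t θ₀ β) + φ (c * evt (Rat.castHom k) t D) * z ^ l) ≠ 0 := by
  obtain ⟨l, b, hl, hob⟩ := obs_poly F _ (hfm.map (ev (Rat.castHom F) (fun i => (a i : F)) θ'))
    hfaroot
  obtain ⟨β, hβ⟩ := hsurj b
  have hDk : evt (Rat.castHom k) t D ≠ 0 := fun h => hD (hpres.inj (by rw [h, map_zero]))
  refine ⟨l, β, hl, fun c hc => ?_⟩
  obtain ⟨P, Q, hQ, hPQ⟩ := hpres.quot (c * evt (Rat.castHom k) t D)
  have hP : ev (Rat.castHom k) t θ₀ P ≠ 0 := by
    intro h
    rw [h, zero_div] at hPQ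
    exact mul_ne_zero hc hDk hPQ
  obtain ⟨P', R, hR, hdvd⟩ := hDIVK n k _ t θ₀ m hpres P hP
  obtain ⟨c₀, hc₀, hcp⟩ := hAPPK n F m f a θ' hpres.monic hfm hmF hmF' β P P' R Q hR hQ hdvd l hl
  obtain ⟨v, hv⟩ := hob c₀ hc₀
  obtain ⟨L, _, _, ⟨e⟩⟩ := hPROP F v
  obtain ⟨τ, ρ, hinj, hmρ, hz⟩ := hcp L
    ((e : v.adicCompletion F →+* L).comp (algebraMap F (v.adicCompletion F))) (by
    intro z h0
    rw [hβ, ← Polynomial.map_map, ← Polynomial.map_map] at h0
    refine hv (e.symm z) ?_
    apply e.injective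
    rw [map_zero, ← h0, ← RingEquiv.coe_toRingHom, ← eval_map_apply]
    congr 1
    rw [map_add, map_mul, map_pow, RingEquiv.coe_toRingHom, e.apply_symm_apply]
    rfl)
  obtain ⟨φ, hφ⟩ := hEMBK n k L (Rat.castHom k) _ t θ₀ m hpres τ ρ hinj hmρ
  refine ⟨v, (e.symm : L →+* v.adicCompletion F).comp φ, fun z h1 => hz (e z) ?_⟩
  have hcomp : φ.comp (ev (Rat.castHom k) t θ₀) =
      ev (((e : v.adicCompletion F →+* L).comp (algebraMap F (v.adicCompletion F))).comp
        (Rat.castHom F)) τ ρ := RingHom.ext hφ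
  have hevt : ∀ Q : A n, φ (evt (Rat.castHom k) t Q) =
      evt (((e : v.adicCompletion F →+* L).comp (algebraMap F (v.adicCompletion F))).comp
        (Rat.castHom F)) τ Q := by
    intro Q
    rw [← ev_C _ _ θ₀, hφ, ev_C]
  have h2 : φ (c * evt (Rat.castHom k) t D) =
      ev (((e : v.adicCompletion F →+* L).comp (algebraMap F (v.adicCompletion F))).comp
        (Rat.castHom F)) τ ρ P /
      evt (((e : v.adicCompletion F →+* L).comp (algebraMap F (v.adicCompletion F))).comp
        (Rat.castHom F)) τ Q := by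
    rw [hPQ, map_div₀, hφ, hevt]
  rw [← h2, ← hφ β, ← hcomp]
  have h3 := congrArg (e : v.adicCompletion F →+* L) h1
  rw [map_zero, ← eval_map_apply, Polynomial.map_map] at h3
  have e5 : (e : v.adicCompletion F →+* L).comp
      (((e.symm : L →+* v.adicCompletion F).comp φ).comp (ev (Rat.castHom k) t θ₀)) =
      φ.comp (ev (Rat.castHom k) t θ₀) := by
    refine RingHom.ext fun x => ?_
    exact e.apply_symm_apply _
  rw [e5] at h3
  rw [← h3]
  congr 1
  have e6 : ∀ x : k, (e : v.adicCompletion F →+* L)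
      (((e.symm : L →+* v.adicCompletion F).comp φ) x) = φ x := fun x => e.apply_symm_apply _
  rw [map_add (e : v.adicCompletion F →+* L), map_mul (e : v.adicCompletion F →+* L),
    map_pow (e : v.adicCompletion F →+* L), e6, e6]
  rfl

theorem glue : S_GLUE := by
  classical
  intro hHILB hEMBK hDIVK hAPPK hPROP k B _ _ _ _ _ hfg T hT hne
  obtain ⟨n, t, θ₀, m, D, f, a, θa, hpres, hD, hfm, hf, hma, hma', hroot⟩ := hHILB k B hfg T hT hne
  have hDk : evt (Rat.castHom k) t D ≠ 0 := fun h => hD (hpres.inj (by rw [h, map_zero]))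
  set F : IntermediateField ℚ (AlgebraicClosure ℚ) := IntermediateField.adjoin ℚ {θa} with hF
  have hint : IsIntegral ℚ θa := by
    refine ⟨m.map (MvPolynomial.eval a), hpres.monic.map _, ?_⟩
    have e1 : algebraMap ℚ (AlgebraicClosure ℚ) = Rat.castHom (AlgebraicClosure ℚ) :=
      Subsingleton.elim _ _
    have e2 := ev_cast (Rat.castHom (AlgebraicClosure ℚ)) a θa m
    rw [hma] at e2
    rw [e1]
    exact e2.symm
  haveI : FiniteDimensional ℚ F := IntermediateField.adjoin.finiteDimensional hint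
  haveI hNF : NumberField F := NumberField.of_module_finite ℚ F
  set θ' : F := ⟨θa, IntermediateField.mem_adjoin_simple_self ℚ θa⟩ with hθ'
  -- the specialisation to `F`
  have hval : (algebraMap F (AlgebraicClosure ℚ)).comp
      (ev (Rat.castHom F) (fun i => (a i : F)) θ') =
      ev (Rat.castHom _) (fun i => (a i : AlgebraicClosure ℚ)) θa := by
    rw [hom_ev]
    congr 1
  have hinjF : Function.Injective (algebraMap F (AlgebraicClosure ℚ)) :=
    (algebraMap F (AlgebraicClosure ℚ)).injective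
  have hmF : ev (Rat.castHom F) (fun i => (a i : F)) θ' m = 0 := by
    apply hinjF
    rw [← RingHom.comp_apply, hval, hma, map_zero]
  have hmF' : ev (Rat.castHom F) (fun i => (a i : F)) θ' (derivative m) ≠ 0 := by
    intro h
    apply hma'
    rw [← hval, RingHom.comp_apply, h, map_zero]
  have hfaroot : ∀ y : F, (f.map (ev (Rat.castHom F) (fun i => (a i : F)) θ')).eval y ≠ 0 := by
    intro y hy
    apply hroot y y.2
    rw [← hval, ← Polynomial.map_map]
    change ((f.map (ev (Rat.castHom F) (fun i => (a i : F)) θ')).map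
      (algebraMap F (AlgebraicClosure ℚ))).eval (algebraMap F (AlgebraicClosure ℚ) y) = 0
    rw [eval_map_apply, hy, map_zero]
  have hsurj : ∀ b : F, ∃ β : (A n)[X], ev (Rat.castHom F) (fun i => (a i : F)) θ' β = b := by
    intro b
    have h1 : (b : AlgebraicClosure ℚ) ∈ (IntermediateField.adjoin ℚ {θa}).toSubalgebra := b.2
    rw [IntermediateField.adjoin_simple_toSubalgebra_of_isAlgebraic hint.isAlgebraic,
      Algebra.adjoin_singleton_eq_range_aeval] at h1
    obtain ⟨p, hp⟩ := h1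
    refine ⟨p.map MvPolynomial.C, ?_⟩
    apply hinjF
    rw [← RingHom.comp_apply, hval, ev_map]
    have e1 : Rat.castHom (AlgebraicClosure ℚ) = algebraMap ℚ (AlgebraicClosure ℚ) :=
      Subsingleton.elim _ _
    rw [e1]
    exact hp
  obtain ⟨l, β, hl, hob⟩ := local_part hEMBK hDIVK hAPPK hPROP n k t θ₀ m D f a hpres hD hfm F θ'
    hmF hmF' hfaroot hsurj
  refine ⟨l, ev (Rat.castHom k) t θ₀ β / evt (Rat.castHom k) t D, hl, fun c hc => ?_⟩
  obtain ⟨v, φ, hφ⟩ := hob c hc
  refine ⟨F, hNF, v, φ, fun C' _ κ ι hcompat θ hθ z h1 => hφ z ?_⟩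
  have hφD : φ (evt (Rat.castHom k) t D) ≠ 0 := (_root_.map_ne_zero φ).2 hDk
  have h2 : ι (algebraMap k B (evt (Rat.castHom k) t D) * θ) =
      κ (φ (ev (Rat.castHom k) t θ₀ β) + φ (c * evt (Rat.castHom k) t D) * z ^ l) := by
    have e1 : ι θ = κ (φ (ev (Rat.castHom k) t θ₀ β / evt (Rat.castHom k) t D)) +
        κ (φ c * z ^ l) := by
      rw [← h1, map_sub, hcompat]
      ring
    rw [map_mul, hcompat, e1, ← map_add, ← map_mul, map_div₀]
    congr 1
    rw [map_mul φ c]
    field_simp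
  have h3 : (f.map ((algebraMap k B).comp (ev (Rat.castHom k) t θ₀))).eval
      (algebraMap k B (evt (Rat.castHom k) t D) * θ) = 0 := by
    rw [hf, eval_prod]
    refine Finset.prod_eq_zero hθ ?_
    rw [eval_sub, eval_X, eval_C, sub_self]
  have h4 := congrArg ι h3
  rw [map_zero, ← eval_map_apply, Polynomial.map_map, h2] at h4
  have e4 : ι.comp ((algebraMap k B).comp (ev (Rat.castHom k) t θ₀)) =
      κ.comp (φ.comp (ev (Rat.castHom k) t θ₀)) := by
    refine RingHom.ext fun R => ?_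
    exact hcompat _
  rw [e4, ← Polynomial.map_map, eval_map_apply, _root_.map_eq_zero] at h4
  exact h4

end Pool.Agent.Zk95.HT
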