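import Mathlib
import Pool.Agent.Zk12.HT.Stm2
import Pool.Agent.N890.KO.LOC

/-!
# Project HT+, infinitely divisible elements of the completions of number fields
-/

set_option autoImplicit false
set_option linter.all false

open Polynomial NumberField IsDedekindDomain

namespace Pool.Agent.Zk95.HT

open Pool.Agent.Zk12.HT

section

variable {L : Type} [NontriviallyNormedField L] [IsUltrametricDist L]

theorem norm_le_one_of_near {w : L} {ε : ℝ} (hε : ε ≤ 1) (hw : ‖w - 1‖ < ε) : ‖w‖ ≤ 1 := by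
  have h : w = (w - 1) + 1 := by ring
  rw [h]
  refine (IsUltrametricDist.norm_add_le_max _ _).trans ?_
  rw [norm_one]
  exact max_le (hw.le.trans hε) le_rfl

theorem pow_near_one {w : L} {ε : ℝ} (hε0 : 0 < ε) (hε : ε ≤ 1) (hw : ‖w - 1‖ < ε) (r : ℕ) :
    ‖w ^ r - 1‖ < ε := by
  induction r with
  | zero => simpa using hε0
  | succ r ih =>
    have h : w ^ (r + 1) - 1 = w ^ r * (w - 1) + (w ^ r - 1) := by ring
    rw [h]
    refine (IsUltrametricDist.norm_add_le_max _ _).trans_lt (max_lt ?_ ih)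
    rw [norm_mul, norm_pow]
    calc ‖w‖ ^ r * ‖w - 1‖ ≤ 1 * ‖w - 1‖ :=
          mul_le_mul_of_nonneg_right (pow_le_one₀ (norm_nonneg _) (norm_le_one_of_near hε hw))
            (norm_nonneg _)
      _ < ε := by rwa [one_mul]

/-- a power of every unit is near `1` -/
theorem exists_exponent [ProperSpace L] {ε : ℝ} (hε0 : 0 < ε) (hε : ε ≤ 1) : ∃ N : ℕ, 0 < N ∧
    ∀ z : L, ‖z‖ = 1 → ‖z ^ N - 1‖ < ε := by
  classical
  obtain ⟨t, -, ht, hcov⟩ := (isCompact_closedBall (0 : L) 1).finite_cover_balls hε0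
  have hR : ∀ x : L, ‖x‖ ≤ 1 → ∃ r ∈ ht.toFinset, ‖x - r‖ < ε := by
    intro x hx
    have h1 : x ∈ Metric.closedBall (0 : L) 1 := by simpa using hx
    have h2 := hcov h1
    rw [Set.mem_iUnion₂] at h2
    obtain ⟨r, hr, h3⟩ := h2
    refine ⟨r, ht.mem_toFinset.2 hr, ?_⟩
    rwa [Metric.mem_ball, dist_eq_norm] at h3
  set n := ht.toFinset.card with hn
  refine ⟨n.factorial, Nat.factorial_pos n, fun z hz => ?_⟩
  choose! f hf1 hf2 using fun i : ℕ => hR (z ^ i) (by rw [norm_pow, hz, one_pow])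
  obtain ⟨i, hi, j, hj, hij, he⟩ := Finset.exists_ne_map_eq_of_card_lt_of_maps_to
    (s := Finset.range (n + 1)) (t := ht.toFinset) (by rw [Finset.card_range]; omega)
    (f := f) (fun i _ => hf1 i)
  have key : ∀ i j : ℕ, i < j → j < n + 1 → f i = f j → ‖z ^ n.factorial - 1‖ < ε := by
    intro i j hij hj he
    have h1 : ‖z ^ j - z ^ i‖ < ε := by
      have h2 : z ^ j - z ^ i = (z ^ j - f j) - (z ^ i - f i) := by rw [he]; ring
      rw [h2, sub_eq_add_neg]
      refine (IsUltrametricDist.norm_add_le_max _ _).trans_lt (max_lt (hf2 j) ?_)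
      rw [norm_neg]
      exact hf2 i
    have h3 : z ^ j - z ^ i = z ^ i * (z ^ (j - i) - 1) := by
      rw [mul_sub, mul_one, ← pow_add]
      congr 2
      omega
    rw [h3, norm_mul, norm_pow, hz, one_pow, one_mul] at h1
    obtain ⟨r, hr⟩ := Nat.dvd_factorial (by omega : 0 < j - i) (by omega : j - i ≤ n)
    rw [hr, pow_mul]
    exact pow_near_one hε0 hε h1 r
  rw [Finset.mem_range] at hi hj
  rcases lt_or_gt_of_ne hij with h | h
  · exact key i j h hj he
  · exact key j i h hi he.symm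

theorem div_one [ProperSpace L] (u : L) (hu : u ≠ 0)
    (h : ∀ m : ℕ, 0 < m → ∃ z : L, u = z ^ m) : u = 1 := by
  obtain ⟨ϖ, hϖ0, hϖ1, hϖ⟩ := Pool.Agent.N890.KO.LOC.exists_unif L
  have hpos : 0 < ‖ϖ‖ := norm_pos_iff.2 hϖ0
  obtain ⟨k, hk⟩ := hϖ u hu
  have hinj : ∀ a b : ℤ, ‖ϖ‖ ^ a = ‖ϖ‖ ^ b → a = b := by
    intro a b hab
    exact zpow_right_injective₀ hpos hϖ1.ne hab
  have hk0 : k = 0 := by
    by_contra hne
    obtain ⟨z, hz⟩ := h (k.natAbs + 1) (Nat.succ_pos _)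
    have hz0 : z ≠ 0 := by
      rintro rfl
      rw [zero_pow (Nat.succ_ne_zero _)] at hz
      exact hu hz
    obtain ⟨j, hj⟩ := hϖ z hz0
    have h1 : ‖ϖ‖ ^ k = ‖ϖ‖ ^ (j * ((k.natAbs + 1 : ℕ) : ℤ)) := by
      rw [← hk, hz, norm_pow, hj, zpow_mul, zpow_natCast]
    have h2 := hinj _ _ h1
    have h3 : ((k.natAbs + 1 : ℕ) : ℤ) ∣ k := Dvd.intro_left j h2.symm
    have h4 := Int.natAbs_dvd_natAbs.2 h3
    rw [Int.natAbs_natCast] at h4
    have h5 := Nat.le_of_dvd (Int.natAbs_pos.2 hne) h4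
    omega
  have hu1 : ‖u‖ = 1 := by rw [hk, hk0, zpow_zero]
  have hnear : ∀ ε : ℝ, 0 < ε → ε ≤ 1 → ‖u - 1‖ < ε := by
    intro ε hε0 hε
    obtain ⟨N, hN, hz⟩ := exists_exponent (L := L) hε0 hε
    obtain ⟨z, hzu⟩ := h N hN
    have hz1 : ‖z‖ = 1 := by
      have h1 : ‖z‖ ^ N = 1 := by rw [← norm_pow, ← hzu, hu1]
      exact (pow_eq_one_iff_of_nonneg (norm_nonneg _) hN.ne').1 h1
    rw [hzu]
    exact hz z hz1
  by_contra hne
  have h1 : 0 < ‖u - 1‖ := norm_pos_iff.2 (sub_ne_zero.2 hne)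
  have h2 := hnear (min ‖u - 1‖ 1) (lt_min h1 one_pos) (min_le_right _ _)
  exact absurd h2 (not_lt.2 (min_le_left _ _))

end

/-- infinitely divisible elements -/
theorem powF : S_POWF := by
  intro F _ _ w u hu h
  exact @div_one (w.adicCompletion F) (Pool.Agent.Y791.BS.nnf w) (Pool.Agent.Y791.BS.ultra w)
    (Pool.Agent.Y791.BS.proper w) u hu h

end Pool.Agent.Zk95.HT
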