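import Mathlib
import Pool.Agent.Zk12.HT.GenStm

/-!
# Project HT: the generic hyperelliptic curve

`y² = a_N x^N + … + a_0` over `k₀(a_0, …, a_N)` is `t⁻¹ y² = x^N + b_{N-1} x^{N-1} + … + b_0` with
`t = a_N` and `b_i = a_i / a_N`, over `k₁(t)`, `k₁ = k₀(b_0, …, b_{N-1})`.
-/

set_option autoImplicit false
set_option linter.all false

open Polynomial

namespace Pool.Agent.Zk95.HT

open scoped IntermediateField.algebraAdjoinAdjoin in
/-- fewer elements do not suffice -/
theorem no_fewer {k₀ k : Type} [Field k₀] [Field k] [Algebra k₀ k] {N : ℕ} (a : Fin (N + 1) → k)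
    (ha : AlgebraicIndependent k₀ a) (c : Fin N → k)
    (h : Algebra.IsAlgebraic (IntermediateField.adjoin k₀ (Set.range c)) k) : False := by
  have h1 : Algebra.IsAlgebraic (Algebra.adjoin k₀ (Set.range c)) k :=
    Algebra.IsAlgebraic.trans (Algebra.adjoin k₀ (Set.range c))
      (IntermediateField.adjoin k₀ (Set.range c)) k
  have h3 := Algebra.IsAlgebraic.trdeg_le_cardinalMk k₀ (Set.range c)
  have h4 := ha.cardinalMk_le_trdeg
  have h5 : Cardinal.mk (Set.range c) ≤ N := by
    refine Cardinal.mk_range_le.trans ?_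
    simp
  have h6 : ((N + 1 : ℕ) : Cardinal) ≤ N := by
    refine le_trans ?_ (h4.trans (h3.trans h5))
    simp
  have h7 : N + 1 ≤ N := by exact_mod_cast h6
  omega

/-- everything is algebraic over a field over which the generators are algebraic -/
theorem alg_of_gen {k₀ k : Type} [Field k₀] [Field k] [Algebra k₀ k] {ι : Type} (a : ι → k)
    (htop : IntermediateField.adjoin k₀ (Set.range a) = ⊤) (L : IntermediateField k₀ k)
    (h : ∀ i, IsAlgebraic L (a i)) : Algebra.IsAlgebraic L k := by
  have h1 : IntermediateField.adjoin k₀ (Set.range a) ≤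
      (algebraicClosure L k).restrictScalars k₀ := by
    rw [IntermediateField.adjoin_le_iff]
    rintro _ ⟨i, rfl⟩
    exact (mem_algebraicClosure_iff).2 (h i)
  rw [htop] at h1
  refine ⟨fun z => ?_⟩
  have h2 : z ∈ (algebraicClosure L k).restrictScalars k₀ := h1 IntermediateField.mem_top
  exact (mem_algebraicClosure_iff).1 h2

theorem top_of_gen {k₀ k : Type} [Field k₀] [Field k] [Algebra k₀ k] {ι : Type} (a : ι → k)
    (htop : IntermediateField.adjoin k₀ (Set.range a) = ⊤) (L : IntermediateField k₀ k)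
    (E : IntermediateField L k) (h : ∀ i, a i ∈ E) : E = ⊤ := by
  have h1 : IntermediateField.adjoin k₀ (Set.range a) ≤ E.restrictScalars k₀ := by
    rw [IntermediateField.adjoin_le_iff]
    rintro _ ⟨i, rfl⟩
    exact h i
  rw [htop] at h1
  rw [eq_top_iff]
  intro z _
  exact h1 (IntermediateField.mem_top : z ∈ (⊤ : IntermediateField k₀ k))

/-- the polynomial `x^N + b_{N-1} x^{N-1} + … + b_0` -/
noncomputable def mon {R : Type} [CommRing R] {N : ℕ} (b : Fin N → R) : R[X] :=
  X ^ N + ∑ i : Fin N, C (b i) * X ^ (i : ℕ)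

theorem mon_map {R S : Type} [CommRing R] [CommRing S] {N : ℕ} (b : Fin N → R) (φ : R →+* S) :
    (mon b).map φ = mon (fun i => φ (b i)) := by
  simp [mon, Polynomial.map_sum]

/-- if the constant coefficient is not algebraic over a field which contains the others, the polynomial is
separable -/
theorem mon_sep {k₀ k : Type} [Field k₀] [Field k] [Algebra k₀ k] [CharZero k] {N : ℕ} (hN : 2 ≤ N)
    (b : Fin N → k) (L : IntermediateField k₀ k) (hb : ∀ i : Fin N, (i : ℕ) ≠ 0 → b i ∈ L)
    (h0 : ¬ IsAlgebraic L (b ⟨0, by omega⟩)) : (mon b).Separable := by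
  rw [Polynomial.Separable, Polynomial.isCoprime_iff_aeval_ne_zero_of_isAlgClosed k (AlgebraicClosure k)]
  intro α
  by_contra hcon
  rw [not_or, not_not, not_not] at hcon
  obtain ⟨h1, h2⟩ := hcon
  apply h0
  -- the derivative
  obtain ⟨b', hb'⟩ : ∃ b' : Fin N → L, ∀ i : Fin N, (i : ℕ) ≠ 0 → algebraMap L k (b' i) = b i := by
    classical
    refine ⟨fun i => if h : (i : ℕ) ≠ 0 then ⟨b i, hb i h⟩ else 0, fun i hi => ?_⟩
    show algebraMap L k (if h : (i : ℕ) ≠ 0 then ⟨b i, hb i h⟩ else 0) = b i
    rw [dif_pos hi]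
    rfl
  obtain ⟨g, hgdef⟩ : ∃ g : L[X], g = derivative (mon b') := ⟨_, rfl⟩
  have hg : g.map (algebraMap L k) = derivative (mon b) := by
    rw [hgdef, ← derivative_map, mon_map]
    simp only [mon, derivative_add, derivative_sum]
    refine congrArg₂ (· + ·) rfl (Finset.sum_congr rfl fun i _ => ?_)
    by_cases hi : (i : ℕ) = 0
    · rw [hi, pow_zero, mul_one, mul_one, derivative_C, derivative_C]
    · rw [hb' i hi]
  have hg0 : g ≠ 0 := by
    intro h
    have h3 : g.coeff (N - 1) = 0 := by rw [h, coeff_zero]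
    have h4 : (mon b').coeff N = 1 := by
      simp only [mon, coeff_add, coeff_X_pow_self, finsetSum_coeff, coeff_C_mul, coeff_X_pow]
      rw [Finset.sum_eq_zero, add_zero]
      intro i _
      have : N ≠ (i : ℕ) := by have := i.2; omega
      rw [if_neg this, mul_zero]
    have h5 : N - 1 + 1 = N := by omega
    have h6 : g.coeff (N - 1) = (N : L) := by
      rw [hgdef, coeff_derivative, h5, h4, one_mul]
      have : ((N - 1 : ℕ) : L) + 1 = ((N - 1 + 1 : ℕ) : L) := by push_cast; ring
      rw [this, h5]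
    rw [h3] at h6
    have h7 : (algebraMap L k) (N : L) = 0 := by rw [← h6, map_zero]
    rw [map_natCast] at h7
    have : N = 0 := by exact_mod_cast h7
    omega
  have hα : IsAlgebraic L α := by
    refine ⟨g, hg0, ?_⟩
    rw [← h2, ← hg, aeval_map_algebraMap]
  -- the constant coefficient
  have h3 : algebraMap k (AlgebraicClosure k) (b ⟨0, by omega⟩) =
      - (α ^ N + ∑ i ∈ (Finset.univ : Finset (Fin N)).erase ⟨0, by omega⟩,
        algebraMap k (AlgebraicClosure k) (b i) * α ^ (i : ℕ)) := by
    have h4 : aeval α (mon b) = α ^ N + ∑ i : Fin N,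
        algebraMap k (AlgebraicClosure k) (b i) * α ^ (i : ℕ) := by
      simp only [mon, map_add, map_sum, map_mul, map_pow, aeval_X, aeval_C]
    rw [h4, ← Finset.add_sum_erase _ _ (Finset.mem_univ (⟨0, by omega⟩ : Fin N))] at h1
    simp only [pow_zero, mul_one] at h1
    linear_combination h1
  have h4 : algebraMap k (AlgebraicClosure k) (b ⟨0, by omega⟩) ∈
      algebraicClosure L (AlgebraicClosure k) := by
    rw [h3]
    refine neg_mem (add_mem (pow_mem (mem_algebraicClosure_iff.2 hα) N) (sum_mem ?_))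
    intro i hi
    have hi0 : (i : ℕ) ≠ 0 := by
      intro h
      exact (Finset.mem_erase.1 hi).1 (Fin.ext h)
    refine mul_mem ?_ (pow_mem (mem_algebraicClosure_iff.2 hα) _)
    rw [← hb' i hi0, ← IsScalarTower.algebraMap_apply]
    exact IntermediateField.algebraMap_mem _ _
  have h5 := mem_algebraicClosure_iff.1 h4
  exact (isAlgebraic_algebraMap_iff (FaithfulSMul.algebraMap_injective k (AlgebraicClosure k))).1 h5

theorem mon_natDegree {R : Type} [CommRing R] [Nontrivial R] {N : ℕ} (b : Fin N → R) :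
    (mon b).natDegree = N := by
  have h : (∑ i : Fin N, C (b i) * X ^ (i : ℕ) : R[X]).degree < (N : ℕ) := by
    refine (Polynomial.degree_sum_fin_lt b).trans_le ?_
    exact le_rfl
  rw [mon]
  rw [add_comm]
  refine natDegree_eq_of_degree_eq_some ?_
  rw [degree_add_eq_right_of_degree_lt (by rw [degree_X_pow]; exact h), degree_X_pow]

/-- finitely generated over finitely generated -/
theorem fg_over {k₀ k : Type} [Field k₀] [CharZero k₀] (hfg : (⊤ : IntermediateField ℚ k₀).FG) [Field k]
    [Algebra k₀ k] {ι : Type} [Finite ι] (b : ι → k) [CharZero (IntermediateField.adjoin k₀ (Set.range b))] :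
    (⊤ : IntermediateField ℚ (IntermediateField.adjoin k₀ (Set.range b))).FG := by
  have h1 : Algebra.EssFiniteType ℚ k₀ := IntermediateField.fg_top_iff.1 hfg
  have h2 : Algebra.EssFiniteType k₀ (IntermediateField.adjoin k₀ (Set.range b)) := by
    rw [IntermediateField.essFiniteType_iff]
    exact IntermediateField.fg_def.2 ⟨Set.range b, Set.finite_range b, rfl⟩
  have h3 : IsScalarTower ℚ k₀ (IntermediateField.adjoin k₀ (Set.range b)) := inferInstance
  have h4 : Algebra.EssFiniteType ℚ (IntermediateField.adjoin k₀ (Set.range b)) :=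
    Algebra.EssFiniteType.comp ℚ k₀ (IntermediateField.adjoin k₀ (Set.range b))
  exact IntermediateField.fg_top_iff.2 h4


theorem gen_core {k₀ k : Type} [Field k₀] [CharZero k₀] [Field k] [Algebra k₀ k] (N : ℕ)
    (hN : 3 ≤ N) (a : Fin (N + 1) → k) (ha : AlgebraicIndependent k₀ a)
    (htop : IntermediateField.adjoin k₀ (Set.range a) = ⊤)
    (Q : k[X] → k → Prop)
    (hmul : ∀ (c d : k) (F : k[X]), c ≠ 0 → Q F d → Q (C c * F) (c * d))
    (hQ : ∀ (L : IntermediateField k₀ k) (b : Fin N → k) (_ : L = IntermediateField.adjoin k₀ (Set.range b))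
      (t : k) (_ : Transcendental L t) (_ : IntermediateField.adjoin L {t} = ⊤) (f : L[X]) (_ : f.Separable)
      (_ : 3 ≤ f.natDegree), Q (f.map (algebraMap L k)) (t⁻¹)) :
    Q (∑ i : Fin (N + 1), C (a i) * X ^ (i : ℕ)) 1 := by
  haveI : CharZero k := charZero_of_injective_algebraMap (FaithfulSMul.algebraMap_injective k₀ k)
  obtain ⟨t, ht⟩ : ∃ t, t = a (Fin.last N) := ⟨_, rfl⟩
  have ht0 : t ≠ 0 := by
    rw [ht]
    exact ha.ne_zero (Fin.last N)
  obtain ⟨b, hb⟩ : ∃ b : Fin N → k, ∀ i, b i = a i.castSucc / t := ⟨_, fun _ => rfl⟩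
  have hab : ∀ i, a i.castSucc = b i * t := fun i => by rw [hb, div_mul_cancel₀ _ ht0]
  obtain ⟨L, hL⟩ : ∃ L, L = IntermediateField.adjoin k₀ (Set.range b) := ⟨_, rfl⟩
  have hbL : ∀ i, b i ∈ L := fun i => by
    rw [hL]; exact IntermediateField.subset_adjoin _ _ ⟨i, rfl⟩
  obtain ⟨bL, hbL'⟩ : ∃ bL : Fin N → L, ∀ i, algebraMap L k (bL i) = b i :=
    ⟨fun i => ⟨b i, hbL i⟩, fun i => rfl⟩
  -- all generators
  have halg : ∀ E : IntermediateField k₀ k, (∀ i, IsAlgebraic E (b i)) → IsAlgebraic E t →
      Algebra.IsAlgebraic E k := by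
    intro E h1 h2
    refine alg_of_gen a htop E fun i => ?_
    refine Fin.lastCases ?_ (fun j => ?_) i
    · rw [← ht]; exact h2
    · rw [hab]; exact (h1 j).mul h2
  have htr : Transcendental L t := by
    intro h
    have h1 : Algebra.IsAlgebraic L k :=
      halg L (fun i => by rw [← hbL' i]; exact isAlgebraic_algebraMap _) h
    rw [hL] at h1
    exact no_fewer a ha b h1
  have hgen : IntermediateField.adjoin L {t} = ⊤ := by
    refine top_of_gen a htop L _ fun i => ?_
    have h2 : t ∈ IntermediateField.adjoin L {t} := IntermediateField.mem_adjoin_simple_self L t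
    refine Fin.lastCases ?_ (fun j => ?_) i
    · rw [← ht]; exact h2
    · rw [hab]
      refine mul_mem ?_ h2
      rw [← hbL' j]
      exact IntermediateField.algebraMap_mem _ _
  have hmapf : (mon bL).map (algebraMap L k) = mon b := by
    rw [mon_map]
    congr 1
    funext i
    exact hbL' i
  have hsep : (mon bL).Separable := by
    rw [← Polynomial.separable_map (algebraMap L k), hmapf]
    -- replace `b_0` by `t`
    obtain ⟨c, hc⟩ : ∃ c : Fin N → k, ∀ i, c i = if (i : ℕ) = 0 then t else b i := ⟨_, fun _ => rfl⟩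
    refine mon_sep (by omega) b (IntermediateField.adjoin k₀ (Set.range c)) (fun i hi => ?_) ?_
    · have h1 : c i = b i := by rw [hc, if_neg hi]
      rw [← h1]
      exact IntermediateField.subset_adjoin _ _ ⟨i, rfl⟩
    · intro h
      have hE : Algebra.IsAlgebraic (IntermediateField.adjoin k₀ (Set.range c)) k := by
        refine halg _ (fun i => ?_) ?_
        · by_cases hi : (i : ℕ) = 0
          · have h1 : i = ⟨0, by omega⟩ := Fin.ext hi
            rw [h1]; exact h
          · have h1 : c i = b i := by rw [hc, if_neg hi]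
            have h2 : b i ∈ IntermediateField.adjoin k₀ (Set.range c) := by
              rw [← h1]
              exact IntermediateField.subset_adjoin _ _ ⟨i, rfl⟩
            exact isAlgebraic_algebraMap (⟨b i, h2⟩ : IntermediateField.adjoin k₀ (Set.range c))
        · have h1 : c ⟨0, by omega⟩ = t := by rw [hc, if_pos rfl]
          have h2 : t ∈ IntermediateField.adjoin k₀ (Set.range c) := by
            rw [← h1]
            exact IntermediateField.subset_adjoin _ _ ⟨_, rfl⟩
          exact isAlgebraic_algebraMap (⟨t, h2⟩ : IntermediateField.adjoin k₀ (Set.range c))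
      exact no_fewer a ha c hE
  have h1 := hQ L b hL t htr hgen (mon bL) hsep (by rw [mon_natDegree]; exact hN)
  have h2 := hmul t _ _ ht0 h1
  rw [mul_inv_cancel₀ ht0, hmapf] at h2
  have h3 : C t * mon b = ∑ i : Fin (N + 1), C (a i) * X ^ (i : ℕ) := by
    rw [Fin.sum_univ_castSucc, mon, mul_add, Finset.mul_sum, add_comm]
    refine congrArg₂ (· + ·) (Finset.sum_congr rfl fun i _ => ?_) ?_
    · rw [hab, Fin.val_castSucc, ← mul_assoc, ← C_mul, mul_comm t]
    · rw [← ht, Fin.val_last]
  rw [h3] at h2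
  exact h2

open Pool.Agent.Zk12.HT Pool.Agent.TH954

/-- multiplication of the equation by a constant -/
theorem bsc_mul_const {k : Type} [Field k] (f : k[X]) (c d : k) (hc : c ≠ 0) (h : BSC f d) :
    BSC (C c * f) (c * d) := by
  intro F Ω B _ _ _ _ _ _ _ _ _ _ x y hx halg hxy s
  have hcF : algebraMap k F c ≠ 0 := (_root_.map_ne_zero _).2 hc
  have h1 : algebraMap k F d * y ^ 2 = aeval x f := by
    rw [map_mul, map_mul, aeval_C, mul_assoc] at hxy
    exact mul_left_cancel₀ hcF hxy
  obtain ⟨O, hO, hu, hpt⟩ := h F Ω B x y hx halg h1 s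
  refine ⟨O, hO, hu, ?_⟩
  rcases hpt with ⟨e, he, hpt⟩ | ⟨hodd, hpt⟩
  · left
    exact ⟨e, by rw [eval_mul, he, mul_zero], hpt⟩
  · right
    refine ⟨?_, hpt⟩
    rwa [natDegree_C_mul hc]

/-- the generic curve -/
theorem gen : S_GEN := by
  intro k₀ k _ _ hfg _ _ N hN a ha htop
  refine gen_core N hN a ha htop (fun f d => BSC f d) (fun c d F hc h => bsc_mul_const F c d hc h) ?_
  intro L b hL t ht hgen f hf h3
  subst hL
  have h := bsc_final (IntermediateField.adjoin k₀ (Set.range b)) k (fg_over hfg b) t ht hgen f hf h3 1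
    one_ne_zero (-1) (by decide)
  rw [map_one, one_mul, zpow_neg_one] at h
  exact h

end Pool.Agent.Zk95.HT
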