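import Mathlib
import Pool.Agent.Zk12.HT.GenStm
import Pool.Agent.Zk95.HT.Gen

/-!
# Project HT: the generic elliptic curve

`y² = x³ + a x + b` over `k₀(a, b)` is, with `t = b / a`, `j = a³ / b²` and `x = t X`, the curve
`t⁻³ y² = X³ + j X + j` over `k₁(t)`, `k₁ = k₀(j)`.
-/

set_option autoImplicit false
set_option linter.all false

open Polynomial

namespace Pool.Agent.Zk95.HT

open Pool.Agent.Zk12.HT Pool.Agent.TH954

/-- scaling of `x` -/
theorem bsc_scale {k : Type} [Field k] (f : k[X]) (u d : k) (hu : u ≠ 0)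
    (h : BSC (f.comp (C u * X)) d) : BSC f d := by
  intro F Ω B _ _ _ _ _ _ _ _ _ _ x y hx halg hxy s
  have huF : algebraMap k F u ≠ 0 := (_root_.map_ne_zero _).2 hu
  obtain ⟨x', hx'⟩ : ∃ x' : F, x' = algebraMap k F u⁻¹ * x := ⟨_, rfl⟩
  have hxx' : x = algebraMap k F u * x' := by
    rw [hx', ← mul_assoc, ← map_mul, mul_inv_cancel₀ hu, map_one, one_mul]
  have hmem : x' ∈ IntermediateField.adjoin k {x} := by
    rw [hx']
    exact mul_mem (IntermediateField.algebraMap_mem _ _) (IntermediateField.mem_adjoin_simple_self k x)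
  have hmem' : x ∈ IntermediateField.adjoin k {x'} := by
    rw [hxx']
    exact mul_mem (IntermediateField.algebraMap_mem _ _) (IntermediateField.mem_adjoin_simple_self k x')
  have heq : IntermediateField.adjoin k {x} = IntermediateField.adjoin k {x'} :=
    le_antisymm (IntermediateField.adjoin_simple_le_iff.2 hmem')
      (IntermediateField.adjoin_simple_le_iff.2 hmem)
  have hx'tr : Transcendental k x' := by
    intro h1
    apply hx
    rw [hxx']
    exact (isAlgebraic_algebraMap u).mul h1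
  have halg' : Algebra.IsAlgebraic (IntermediateField.adjoin k {x'}) F := by
    rw [← heq]; exact halg
  have h1 : algebraMap k F d * y ^ 2 = aeval x' (f.comp (C u * X)) := by
    rw [hxy, aeval_comp, map_mul, aeval_C, aeval_X, ← hxx']
  obtain ⟨O, hO, hun, hpt⟩ := h F Ω B x' y hx'tr halg' h1 s
  refine ⟨O, hO, hun, ?_⟩
  have hmul : ∀ (c : k) (z : F), z ∈ O.nonunits → algebraMap k F c * z ∈ O.nonunits := by
    intro c z hz
    rw [mem_nonunits_iff_lt] at hz ⊢
    rw [map_mul]
    have h2 : O.valuation (algebraMap k F c) ≤ 1 := (O.valuation_le_one_iff _).2 (hO.2.1 c)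
    exact lt_of_le_of_lt (mul_le_of_le_one_left' h2) hz
  rcases hpt with ⟨e, he, hpt⟩ | ⟨hodd, hpt⟩
  · left
    refine ⟨u * e, ?_, ?_⟩
    · rwa [eval_comp, eval_mul, eval_C, eval_X] at he
    · have h2 : x - algebraMap k F (u * e) = algebraMap k F u * (x' - algebraMap k F e) := by
        rw [hxx', map_mul]; ring
      rw [h2]
      exact hmul _ _ hpt
  · right
    refine ⟨?_, ?_⟩
    · rwa [natDegree_comp, natDegree_C_mul_X u hu, mul_one] at hodd
    · have h2 : x⁻¹ = algebraMap k F u⁻¹ * x'⁻¹ := by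
        rw [hxx', mul_inv, map_inv₀]
      rw [h2]
      exact hmul _ _ hpt

/-- the generic elliptic curve -/
theorem genE : S_GENE := by
  intro k₀ k _ _ hfg _ _ a ha htop
  haveI : CharZero k := charZero_of_injective_algebraMap (FaithfulSMul.algebraMap_injective k₀ k)
  have ha0 : a 0 ≠ 0 := ha.ne_zero 0
  have ha1 : a 1 ≠ 0 := ha.ne_zero 1
  obtain ⟨t, ht⟩ : ∃ t, t = a 1 / a 0 := ⟨_, rfl⟩
  obtain ⟨j, hj⟩ : ∃ j, j = a 0 ^ 3 / a 1 ^ 2 := ⟨_, rfl⟩
  have ht0 : t ≠ 0 := by rw [ht]; exact div_ne_zero ha1 ha0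
  have h0 : a 0 = j * t ^ 2 := by rw [hj, ht]; field_simp
  have h1 : a 1 = j * t ^ 3 := by rw [hj, ht]; field_simp
  obtain ⟨b, hb⟩ : ∃ b : Fin 1 → k, ∀ i, b i = j := ⟨_, fun _ => rfl⟩
  obtain ⟨L, hL⟩ : ∃ L, L = IntermediateField.adjoin k₀ (Set.range b) := ⟨_, rfl⟩
  have hjmem : j ∈ L := by
    rw [hL, ← hb 0]; exact IntermediateField.subset_adjoin _ _ ⟨0, rfl⟩
  obtain ⟨jL, hjL⟩ : ∃ jL : L, algebraMap L k jL = j := ⟨⟨j, hjmem⟩, rfl⟩
  have halg : ∀ E : IntermediateField k₀ k, IsAlgebraic E j → IsAlgebraic E t →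
      Algebra.IsAlgebraic E k := by
    intro E h2 h3
    refine alg_of_gen a htop E fun i => ?_
    fin_cases i
    · show IsAlgebraic E (a 0)
      rw [h0]; exact h2.mul (h3.pow 2)
    · show IsAlgebraic E (a 1)
      rw [h1]; exact h2.mul (h3.pow 3)
  have htr : Transcendental L t := by
    intro h
    have h2 : Algebra.IsAlgebraic L k :=
      halg L (by rw [← hjL]; exact isAlgebraic_algebraMap _) h
    rw [hL] at h2
    exact no_fewer a ha b h2
  have hjtr : ¬ IsAlgebraic k₀ j := by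
    intro h
    obtain ⟨c, hc⟩ : ∃ c : Fin 1 → k, ∀ i, c i = t := ⟨_, fun _ => rfl⟩
    have h2 : Algebra.IsAlgebraic (IntermediateField.adjoin k₀ (Set.range c)) k := by
      refine halg _ (h.tower_top _) ?_
      have h3 : t ∈ IntermediateField.adjoin k₀ (Set.range c) := by
        rw [← hc 0]; exact IntermediateField.subset_adjoin _ _ ⟨0, rfl⟩
      exact isAlgebraic_algebraMap (⟨t, h3⟩ : IntermediateField.adjoin k₀ (Set.range c))
    exact no_fewer a ha c h2
  have hgen : IntermediateField.adjoin L {t} = ⊤ := by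
    refine top_of_gen a htop L _ fun i => ?_
    have h2 : t ∈ IntermediateField.adjoin L {t} := IntermediateField.mem_adjoin_simple_self L t
    have h3 : j ∈ IntermediateField.adjoin L {t} := by
      rw [← hjL]; exact IntermediateField.algebraMap_mem _ _
    fin_cases i
    · show a 0 ∈ _
      rw [h0]; exact mul_mem h3 (pow_mem h2 2)
    · show a 1 ∈ _
      rw [h1]; exact mul_mem h3 (pow_mem h2 3)
  have hj0 : j ≠ 0 := by
    intro h; exact hjtr (h ▸ isAlgebraic_zero)
  have hjL0 : jL ≠ 0 := by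
    intro h; apply hj0; rw [← hjL, h, map_zero]
  have hD : 4 * jL ^ 3 + 27 * jL ^ 2 ≠ 0 := by
    intro h
    have h2 : jL ^ 2 * (4 * jL + 27) = 0 := by linear_combination h
    rcases mul_eq_zero.1 h2 with h3 | h3
    · exact hjL0 (pow_eq_zero_iff (by norm_num) |>.1 h3)
    · apply hjtr
      have h4 : 4 * j + 27 = 0 := by
        have h5 := congrArg (algebraMap L k) h3
        rwa [map_add, map_mul, hjL, map_ofNat, map_ofNat, map_zero] at h5
      have h5 : j = algebraMap k₀ k (- 27 / 4) := by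
        rw [map_div₀, map_neg, map_ofNat, map_ofNat]
        field_simp
        linear_combination h4
      rw [h5]
      exact isAlgebraic_algebraMap _
  have hsep : (X ^ 3 + C jL * X + C jL : L[X]).Separable := by
    rw [Polynomial.separable_def']
    have hder : derivative (X ^ 3 + C jL * X + C jL : L[X]) = C 3 * X ^ 2 + C jL := by
      rw [derivative_add, derivative_add, derivative_X_pow, derivative_C, derivative_C_mul_X]
      norm_num
    refine ⟨C (4 * jL ^ 3 + 27 * jL ^ 2)⁻¹ * (- C (18 * jL) * X + C (27 * jL)),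
      C (4 * jL ^ 3 + 27 * jL ^ 2)⁻¹ * (C (6 * jL) * X ^ 2 - C (9 * jL) * X + C (4 * jL ^ 2)), ?_⟩
    have h2 : (C (4 * jL ^ 3 + 27 * jL ^ 2)⁻¹ : L[X]) * C (4 * jL ^ 3 + 27 * jL ^ 2) = 1 := by
      rw [← C_mul, inv_mul_cancel₀ hD, C_1]
    rw [hder]
    generalize (C (4 * jL ^ 3 + 27 * jL ^ 2)⁻¹ : L[X]) = Z at h2 ⊢
    simp only [C_add, C_mul, C_pow, map_ofNat] at h2 ⊢
    linear_combination h2
  have hdeg : (X ^ 3 + C jL * X + C jL : L[X]).natDegree = 3 := by
    compute_degree!
  subst hL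
  have h := bsc_final (IntermediateField.adjoin k₀ (Set.range b)) k (fg_over hfg b) t htr hgen
    (X ^ 3 + C jL * X + C jL) hsep (by rw [hdeg]) 1 one_ne_zero (-3) (by decide)
  rw [map_one, one_mul] at h
  have h2 := bsc_mul_const _ (t ^ 3) _ (pow_ne_zero 3 ht0) h
  have h3 : t ^ 3 * t ^ (-3 : ℤ) = 1 := by
    rw [zpow_neg, zpow_ofNat]
    exact mul_inv_cancel₀ (pow_ne_zero 3 ht0)
  rw [h3] at h2
  refine bsc_scale _ t 1 ht0 ?_
  have h4 : (X ^ 3 + C (a 0) * X + C (a 1) : k[X]).comp (C t * X) =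
      C (t ^ 3) * (X ^ 3 + C jL * X + C jL :
        (IntermediateField.adjoin k₀ (Set.range b))[X]).map (algebraMap _ k) := by
    simp only [add_comp, mul_comp, pow_comp, X_comp, C_comp, Polynomial.map_add, Polynomial.map_mul,
      Polynomial.map_pow, map_X, map_C, hjL, h0, h1]
    simp only [map_mul, map_pow]
    ring
  rw [h4]
  exact h2

end Pool.Agent.Zk95.HT
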